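import Mathlib
import Pool.Agent.W223.AK.Basic

/-!
# Preparations for the difference bound: ideals of elements, sizes, points
-/

set_option autoImplicit false
set_option linter.unusedSectionVars false

namespace Pool.Agent.W462.AK

open NumberField IsDedekindDomain Finset Pool.Agent.H691R3 Pool.Agent.W223.AK

variable {K : Type} [Field K] [NumberField K]

/-! ### counting -/

theorem card_le_mul_fib {α β : Type*} [DecidableEq β] (s : Finset α) (f : α → β) (m n : ℝ)
    (hn : 0 ≤ n) (hm : ((s.image f).card : ℝ) ≤ m)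
    (h : ∀ b ∈ s.image f, ((s.filter (fun a => f a = b)).card : ℝ) ≤ n) :
    (s.card : ℝ) ≤ m * n := by
  have h1 : s.card = ∑ b ∈ s.image f, (s.filter (fun a => f a = b)).card :=
    Finset.card_eq_sum_card_image f s
  calc (s.card : ℝ) = ∑ b ∈ s.image f, ((s.filter (fun a => f a = b)).card : ℝ) := by
        rw [h1]; push_cast; rfl
    _ ≤ ∑ b ∈ s.image f, n := Finset.sum_le_sum h
    _ = (s.image f).card * n := by rw [Finset.sum_const, nsmul_eq_mul]
    _ ≤ m * n := mul_le_mul_of_nonneg_right hm hn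

/-- Cauchy-Schwarz for the fibres of a map -/
theorem card_sq_le {α β : Type*} [DecidableEq α] [DecidableEq β] (s : Finset α) (f : α → β) :
    (s.card : ℝ) ^ 2 ≤ (s.image f).card *
      (s.card + (((s ×ˢ s).filter (fun t => f t.1 = f t.2 ∧ t.1 ≠ t.2)).card : ℝ)) := by
  have h1 : s.card = ∑ b ∈ s.image f, (s.filter (fun a => f a = b)).card :=
    Finset.card_eq_sum_card_image f s
  have h2 : (s.card : ℝ) ^ 2 ≤ (s.image f).card *
      ∑ b ∈ s.image f, ((s.filter (fun a => f a = b)).card : ℝ) ^ 2 := by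
    have := sq_sum_le_card_mul_sum_sq (s := s.image f)
      (f := fun b => ((s.filter (fun a => f a = b)).card : ℝ))
    calc (s.card : ℝ) ^ 2 = (∑ b ∈ s.image f, ((s.filter (fun a => f a = b)).card : ℝ)) ^ 2 := by
          rw [h1]; push_cast; rfl
      _ ≤ _ := this
  have h3 : ∑ b ∈ s.image f, (s.filter (fun a => f a = b)).card ^ 2 =
      ((s ×ˢ s).filter (fun t => f t.1 = f t.2)).card := by
    rw [Finset.card_eq_sum_card_fiberwise (f := fun t : α × α => f t.1) (t := s.image f)]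
    · refine Finset.sum_congr rfl fun b _ => ?_
      rw [sq, ← Finset.card_product]
      congr 1
      ext t
      simp only [Finset.mem_product, Finset.mem_filter]
      constructor
      · rintro ⟨⟨a1, a2⟩, a3, a4⟩
        exact ⟨⟨⟨a1, a3⟩, a2.trans a4.symm⟩, a2⟩
      · rintro ⟨⟨⟨a1, a3⟩, a2⟩, a4⟩
        exact ⟨⟨a1, a4⟩, a3, a2.symm.trans a4⟩
    · intro t ht
      simp only [Finset.coe_filter, Finset.mem_product, Set.mem_ofPred_eq] at ht
      exact Finset.mem_coe.2 (Finset.mem_image_of_mem f ht.1.1)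
  have h4 : ((s ×ˢ s).filter (fun t => f t.1 = f t.2)).card ≤
      s.card + ((s ×ˢ s).filter (fun t => f t.1 = f t.2 ∧ t.1 ≠ t.2)).card := by
    have e1 : (s ×ˢ s).filter (fun t => f t.1 = f t.2) ⊆
        s.image (fun a => (a, a)) ∪ (s ×ˢ s).filter (fun t => f t.1 = f t.2 ∧ t.1 ≠ t.2) := by
      intro t ht
      rw [Finset.mem_filter, Finset.mem_product] at ht
      rw [Finset.mem_union]
      by_cases h : t.1 = t.2
      · left
        exact Finset.mem_image.2 ⟨t.1, ht.1.1, Prod.ext rfl h⟩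
      · right
        rw [Finset.mem_filter, Finset.mem_product]
        exact ⟨ht.1, ht.2, h⟩
    calc _ ≤ _ := Finset.card_le_card e1
      _ ≤ _ := Finset.card_union_le _ _
      _ ≤ _ := Nat.add_le_add_right Finset.card_image_le _
  have h5 : ∑ b ∈ s.image f, ((s.filter (fun a => f a = b)).card : ℝ) ^ 2 ≤
      s.card + (((s ×ˢ s).filter (fun t => f t.1 = f t.2 ∧ t.1 ≠ t.2)).card : ℝ) := by
    have e2 : ∑ b ∈ s.image f, ((s.filter (fun a => f a = b)).card : ℝ) ^ 2 =
        (((s ×ˢ s).filter (fun t => f t.1 = f t.2)).card : ℝ) := by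
      rw [← h3]; push_cast; rfl
    rw [e2]
    exact_mod_cast h4
  exact h2.trans (mul_le_mul_of_nonneg_left h5 (Nat.cast_nonneg _))

/-- the number of ideals dividing a given one -/
theorem card_div (hF : StmtFAC K) {ε : ℝ} (hε : 0 < ε) : ∃ D : ℝ, 0 < D ∧ ∀ (I : Idl K)
    (F : Finset (Idl K)), (∀ a ∈ F, a ≤ I) → (F.card : ℝ) ≤ D * Real.exp (ε * len I) := by
  classical
  obtain ⟨D, hD, H⟩ := hF 2 ε hε
  refine ⟨D, hD, fun I F hFI => ?_⟩
  have hinj : Function.Injective (fun a : Idl K => (![a, I - a] : Fin 2 → Idl K)) := by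
    intro a b hab
    have := congrFun hab 0
    exact this
  have := H I (F.image (fun a : Idl K => (![a, I - a] : Fin 2 → Idl K))) (by
    intro x hx
    obtain ⟨a, ha, rfl⟩ := Finset.mem_image.1 hx
    rw [Fin.sum_univ_two]
    show a + (I - a) = I
    exact add_tsub_cancel_of_le (hFI a ha))
  rwa [Finset.card_image_of_injective _ hinj] at this

/-! ### the ideal of an element -/

theorem zpow_neg_le_iff {v : Pr K} {a b : ℕ} :
    (Nv v) ^ (-(a : ℤ)) ≤ (Nv v) ^ (-(b : ℤ)) ↔ b ≤ a := by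
  rw [zpow_le_zpow_iff_right₀ (Nv_one_lt v)]
  omega

theorem exists_idl (S : Finset (Pr K)) {z : K} (hz : z ≠ 0) (hint : ∀ v, v ∉ S → fv v z ≤ 1) :
    ∃ I : Idl K, OffS S I ∧ ∀ v, v ∉ S → fv v z = (Nv v) ^ (-(I v : ℤ)) := by
  classical
  have h1 : ∀ v : Pr K, ∃ k : ℕ, (v ∉ S → fv v z = (Nv v) ^ (-(k : ℤ))) ∧ (v ∈ S → k = 0) := by
    intro v
    by_cases hv : v ∈ S
    · exact ⟨0, fun h => absurd hv h, fun _ => rfl⟩
    · obtain ⟨n, hn⟩ := fv_zpow v hz
      have h2 := hint v hv
      rw [hn] at h2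
      have h3 : n ≤ 0 := by
        by_contra hcon
        push Not at hcon
        have := one_lt_zpow₀ (Nv_one_lt v) hcon
        linarith
      refine ⟨(-n).toNat, fun _ => ?_, fun h => absurd h hv⟩
      rw [hn, Int.toNat_of_nonneg (by omega), neg_neg]
  choose k hk hk' using h1
  have hfin : (Function.support k).Finite := by
    refine (fv_support_finite hz).subset ?_
    intro v hv
    have hv0 : k v ≠ 0 := hv
    have hvS : v ∉ S := fun h => hv0 (hk' v h)
    show fv v z ≠ 1
    rw [hk v hvS]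
    intro h
    have h2 : (Nv v) ^ (-(k v : ℤ)) = (Nv v) ^ (-((0 : ℕ) : ℤ)) := by simpa using h
    exact hv0 (le_antisymm (zpow_neg_le_iff.1 h2.symm.le) (Nat.zero_le _))
  refine ⟨Finsupp.ofSupportFinite k hfin, fun v hv => hk' v hv, fun v hv => hk v hv⟩

/-- `I` is the ideal of `z` outside `S` -/
def IsI (S : Finset (Pr K)) (z : K) (I : Idl K) : Prop :=
  OffS S I ∧ ∀ v, v ∉ S → fv v z = (Nv v) ^ (-(I v : ℤ))

open Classical in
/-- the ideal of an element outside `S` -/
noncomputable def idl (S : Finset (Pr K)) (z : K) : Idl K :=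
  if h : ∃ I : Idl K, IsI S z I then h.choose else 0

theorem idl_spec (S : Finset (Pr K)) {z : K} (hz : z ≠ 0) (hint : ∀ v, v ∉ S → fv v z ≤ 1) :
    IsI S z (idl S z) := by
  have h : ∃ I : Idl K, IsI S z I := exists_idl S hz hint
  unfold idl
  rw [dif_pos h]
  exact h.choose_spec

theorem IsI.le {S : Finset (Pr K)} {z w : K} {I J : Idl K} (hI : IsI S z I) (hJ : IsI S w J)
    (h : ∀ v, v ∉ S → fv v z ≤ fv v w) : J ≤ I := by
  intro v
  by_cases hv : v ∈ S
  · rw [hJ.1 v hv]; exact Nat.zero_le _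
  · have := h v hv
    rw [hI.2 v hv, hJ.2 v hv] at this
    exact zpow_neg_le_iff.1 this

theorem IsI.len_eq {S : Finset (Pr K)} {z : K} {I : Idl K} (hI : IsI S z I) (hz : z ≠ 0) :
    len I = ∑ u ∈ Spl S, mt u * Real.log (av u z) := by
  classical
  have hd : Disjoint S I.support := by
    rw [Finset.disjoint_left]
    intro v hv hv'
    exact (Finsupp.mem_support_iff.mp hv') (hI.1 v hv)
  have h := product_formula S hz I.support (fun v hv hv' => by
    rw [hI.2 v hv, Finsupp.notMem_support_iff.mp hv']; simp) hd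
  have h2 : ∑ v ∈ I.support, Real.log (fv v z) = -len I := by
    unfold len
    rw [← Finset.sum_neg_distrib]
    refine Finset.sum_congr rfl fun v hv => ?_
    have hvS : v ∉ S := fun h => (Finsupp.mem_support_iff.mp hv) (hI.1 v h)
    rw [hI.2 v hvS, Real.log_zpow]
    push_cast
    ring
  rw [h2] at h
  linarith

/-! ### sizes at the special places -/

/-- bounded sizes -/
def Bd (S : Finset (Pr K)) (T : ℝ) (y : K) : Prop :=
  ∀ u ∈ Spl S, |mt u * Real.log (av u y)| ≤ T

theorem mt_le_two (u : Pl K) : mt u ≤ 2 := by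
  rcases u with w | v
  · rw [mt_inl]
    have : w.mult ≤ 2 := by
      unfold InfinitePlace.mult
      split_ifs <;> norm_num
    exact_mod_cast this
  · rw [mt_inr]; norm_num

theorem mt_log_two (u : Pl K) : mt u * Real.log 2 ≤ 2 := by
  have h1 := mt_le_two u
  have h2 := mt_pos u
  have h3 : Real.log 2 ≤ 1 := by linarith [Real.log_two_lt_d9]
  have h4 : 0 ≤ Real.log 2 := Real.log_nonneg (by norm_num)
  nlinarith

theorem Bd.mono {S : Finset (Pr K)} {T T' : ℝ} {y : K} (h : Bd S T y) (hT : T ≤ T') :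
    Bd S T' y := fun u hu => (h u hu).trans hT

theorem Bd.mul {S : Finset (Pr K)} {T T' : ℝ} {y y' : K} (h : Bd S T y) (h' : Bd S T' y')
    (hy : y ≠ 0) (hy' : y' ≠ 0) : Bd S (T + T') (y * y') := by
  intro u hu
  rw [map_mul, Real.log_mul ((av u).ne_zero hy) ((av u).ne_zero hy'), mul_add]
  exact (abs_add_le _ _).trans (add_le_add (h u hu) (h' u hu))

theorem Bd.inv {S : Finset (Pr K)} {T : ℝ} {y : K} (h : Bd S T y) : Bd S T y⁻¹ := by
  intro u hu
  rw [map_inv₀, Real.log_inv, mul_neg, abs_neg]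
  exact h u hu

theorem Bd.div {S : Finset (Pr K)} {T T' : ℝ} {y y' : K} (h : Bd S T y) (h' : Bd S T' y')
    (hy : y ≠ 0) (hy' : y' ≠ 0) : Bd S (T + T') (y / y') := by
  rw [div_eq_mul_inv]
  exact h.mul h'.inv hy (inv_ne_zero hy')

theorem Bd.gen {S : Finset (Pr K)} {w : Pr K → K} {C : ℝ} (hU : Unif S w C) {a : Idl K}
    (ha : OffS S a) {T : ℝ} (hT : len a ≤ T) : Bd S (C * T) (gen w a) := by
  intro u hu
  refine (spec_gen hU ha hu).trans (mul_le_mul_of_nonneg_left hT ?_)
  linarith [hU.one_le]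

/-- upper bound for a difference -/
theorem ub_sub {S : Finset (Pr K)} {T : ℝ} {y y' : K} (h : Bd S T y) (h' : Bd S T y')
    (hy : y ≠ 0) (hy' : y' ≠ 0) (hne : y - y' ≠ 0) :
    ∀ u ∈ Spl S, mt u * Real.log (av u (y - y')) ≤ T + 2 := by
  intro u hu
  have h1 : av u (y - y') ≤ 2 * max (av u y) (av u y') := by
    have := av_two u y (-y')
    rwa [← sub_eq_add_neg, AbsoluteValue.map_neg] at this
  have hp : 0 < av u (y - y') := (av u).pos hne
  have hp1 : 0 < av u y := (av u).pos hy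
  have hp2 : 0 < av u y' := (av u).pos hy'
  have hm : 0 < max (av u y) (av u y') := lt_max_of_lt_left hp1
  have h2 : Real.log (av u (y - y')) ≤ Real.log 2 + Real.log (max (av u y) (av u y')) := by
    rw [← Real.log_mul (by norm_num) hm.ne']
    exact Real.log_le_log hp h1
  have h3 := mt_pos u
  have h4 := mt_log_two u
  have h5 : mt u * Real.log (max (av u y) (av u y')) ≤ T := by
    rcases max_choice (av u y) (av u y') with h6 | h6
    · rw [h6]; exact (abs_le.1 (h u hu)).2
    · rw [h6]; exact (abs_le.1 (h' u hu)).2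
  calc mt u * Real.log (av u (y - y'))
      ≤ mt u * (Real.log 2 + Real.log (max (av u y) (av u y'))) :=
        mul_le_mul_of_nonneg_left h2 h3.le
    _ = mt u * Real.log 2 + mt u * Real.log (max (av u y) (av u y')) := by ring
    _ ≤ T + 2 := by linarith

theorem len_le_of_ub {S : Finset (Pr K)} {z : K} {I : Idl K} (hI : IsI S z I) (hz : z ≠ 0)
    {T : ℝ} (h : ∀ u ∈ Spl S, mt u * Real.log (av u z) ≤ T) :
    len I ≤ (Spl S).card * T := by
  rw [hI.len_eq hz]
  calc _ ≤ ∑ u ∈ Spl S, T := Finset.sum_le_sum h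
    _ = _ := by rw [Finset.sum_const, nsmul_eq_mul]

theorem bd_of_ub {S : Finset (Pr K)} {z : K} {I : Idl K} (hI : IsI S z I) (hz : z ≠ 0)
    {T : ℝ} (hT : 0 ≤ T) (h : ∀ u ∈ Spl S, mt u * Real.log (av u z) ≤ T) :
    Bd S (((Spl S).card + 1) * T) z := by
  classical
  intro u hu
  have h0 : (0 : ℝ) ≤ (Spl S).card := Nat.cast_nonneg _
  rw [abs_le]
  constructor
  · have h1 := hI.len_eq hz
    have h2 := len_nonneg I
    rw [← Finset.add_sum_erase _ _ hu] at h1
    have h3 : ∑ u ∈ (Spl S).erase u, mt u * Real.log (av u z) ≤ (Spl S).card * T := by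
      calc _ ≤ ∑ u ∈ (Spl S).erase u, T :=
            Finset.sum_le_sum fun u' hu' => h u' (Finset.mem_of_mem_erase hu')
        _ = ((Spl S).erase u).card * T := by rw [Finset.sum_const, nsmul_eq_mul]
        _ ≤ (Spl S).card * T := by
            refine mul_le_mul_of_nonneg_right ?_ hT
            exact_mod_cast Finset.card_erase_le
    linarith
  · have := h u hu
    nlinarith

/-! ### absolute values of integral elements -/

theorem fv_pow_sub_le (v : Pr K) {Y Y' : K} (h : fv v Y ≤ 1) (h' : fv v Y' ≤ 1) (e : ℕ) :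
    fv v (Y ^ e - Y' ^ e) ≤ fv v (Y - Y') := by
  induction e with
  | zero => simp [(fv v).nonneg]
  | succ e ih =>
    have e1 : Y ^ (e + 1) - Y' ^ (e + 1) = Y * (Y ^ e - Y' ^ e) + (Y - Y') * Y' ^ e := by ring
    rw [e1]
    refine (fv_na v _ _).trans (max_le ?_ ?_)
    · rw [map_mul]
      calc fv v Y * fv v (Y ^ e - Y' ^ e) ≤ 1 * fv v (Y - Y') :=
            mul_le_mul h ih ((fv v).nonneg _) zero_le_one
        _ = _ := one_mul _
    · rw [map_mul, map_pow]
      calc fv v (Y - Y') * fv v Y' ^ e ≤ fv v (Y - Y') * 1 :=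
            mul_le_mul_of_nonneg_left (pow_le_one₀ ((fv v).nonneg _) h') ((fv v).nonneg _)
        _ = _ := mul_one _

theorem fv_sub_le_one (v : Pr K) {Y Y' : K} (h : fv v Y ≤ 1) (h' : fv v Y' ≤ 1) :
    fv v (Y - Y') ≤ 1 := by
  rw [sub_eq_add_neg]
  refine (fv_na v _ _).trans (max_le h ?_)
  rw [AbsoluteValue.map_neg]
  exact h'

theorem zpow_neg_le_one (v : Pr K) (n : ℕ) : (Nv v) ^ (-(n : ℤ)) ≤ 1 := by
  have := (zpow_neg_le_iff (v := v) (a := n) (b := 0)).2 (Nat.zero_le _)
  simpa using this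

/-! ### points -/

theorem L_ne {x : K} (hx : Pt x) (l : Fin 3) : L l x ≠ 0 := by
  fin_cases l
  · exact hx.1
  · exact one_ne_zero
  · exact hx.2

theorem L_rel (x : K) : L 0 x + L 1 x = L 2 x := rfl

theorem av_L_le (u : Pl K) (l : Fin 3) (x : K) : av u (L l x) ≤ 2 * max (av u x) 1 := by
  have h1 := le_max_left (av u x) 1
  have h2 := le_max_right (av u x) 1
  fin_cases l
  · show av u x ≤ _
    linarith
  · show av u 1 ≤ _
    rw [map_one]; linarith
  · show av u (x + 1) ≤ _
    have := av_two u x 1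
    rwa [map_one] at this

theorem max_pos (u : Pl K) (x : K) : 0 < max (av u x) 1 := lt_max_of_lt_right one_pos

theorem lm_eq {x : K} (hx : Pt x) (u : Pl K) (l : Fin 3) :
    lm u l x = mt u * Real.log (max (av u x) 1) - mt u * Real.log (av u (L l x)) := by
  unfold lm
  rw [Real.log_div (max_pos u x).ne' ((av u).ne_zero (L_ne hx l)), mul_sub]

theorem lm_ge {x : K} (hx : Pt x) (u : Pl K) (l : Fin 3) : -2 ≤ lm u l x := by
  rw [lm_eq hx]
  have h1 := av_L_le u l x
  have h2 : Real.log (av u (L l x)) ≤ Real.log 2 + Real.log (max (av u x) 1) := by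
    rw [← Real.log_mul (by norm_num) (max_pos u x).ne']
    exact Real.log_le_log ((av u).pos (L_ne hx l)) h1
  have h3 := mt_log_two u
  have h4 := mul_le_mul_of_nonneg_left h2 (mt_pos u).le
  rw [mul_add] at h4
  linarith

theorem ht_sum {S : Finset (Pr K)} {x : K} {P : Fin 3 → Idl K} (hx : Pt x) (hP : IsP S x P)
    (l : Fin 3) : ∑ u ∈ Spl S, lm u l x + len (P l) = ht x := by
  classical
  set s : Finset (Pr K) := ((fv_support_finite hx.1).toFinset ∪
    (fv_support_finite (L_ne hx l)).toFinset ∪ (P l).support) \ S with hs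
  have hd : Disjoint S s := Finset.disjoint_sdiff
  have hnot : ∀ v, v ∉ S → v ∉ s → fv v x = 1 ∧ fv v (L l x) = 1 ∧ P l v = 0 := by
    intro v hv hv'
    rw [hs, Finset.mem_sdiff, not_and_or, not_not] at hv'
    have h1 := hv'.resolve_right hv
    rw [Finset.mem_union, Finset.mem_union, not_or, not_or, Set.Finite.mem_toFinset,
      Set.Finite.mem_toFinset, Finsupp.mem_support_iff] at h1
    exact ⟨not_not.1 h1.1.1, not_not.1 h1.1.2, not_not.1 h1.2⟩
  have h1 := ht_eq S x s (fun v hv hv' => (hnot v hv hv').1.le) hd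
  have h2 := product_formula S (L_ne hx l) s (fun v hv hv' => (hnot v hv hv').2.1) hd
  have h3 : len (P l) = ∑ v ∈ s, (P l v : ℝ) * Real.log (Nv v) := by
    refine len_eq_sum ?_
    intro v hv
    rw [hs, Finset.mem_sdiff]
    exact ⟨Finset.mem_union_right _ hv, fun h => (Finsupp.mem_support_iff.mp hv) (hP.off l v h)⟩
  have h4 : ∀ v ∈ s, Real.log (fv v (L l x)) =
      Real.log (max (fv v x) 1) - (P l v : ℝ) * Real.log (Nv v) := by
    intro v hv
    have hvS : v ∉ S := (Finset.mem_sdiff.1 hv).2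
    rw [hP.val l v hvS, Real.log_mul (lt_max_of_lt_right one_pos).ne'
      (zpow_pos (Nv_pos v) _).ne', Real.log_zpow]
    push_cast
    ring
  rw [Finset.sum_congr rfl h4, Finset.sum_sub_distrib, ← h3] at h2
  have h5 : ∑ u ∈ Spl S, lm u l x = ∑ u ∈ Spl S, mt u * Real.log (max (av u x) 1) -
      ∑ u ∈ Spl S, mt u * Real.log (av u (L l x)) := by
    rw [← Finset.sum_sub_distrib]
    exact Finset.sum_congr rfl fun u _ => lm_eq hx u l
  rw [h5]
  linarith

theorem len_P_le {S : Finset (Pr K)} {x : K} {P : Fin 3 → Idl K} (hx : Pt x) (hP : IsP S x P)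
    {X : ℝ} (hX : ht x ≤ X) (l : Fin 3) : len (P l) ≤ X + 2 * (Spl S).card := by
  have h1 := ht_sum hx hP l
  have h2 : ∑ u ∈ Spl S, lm u l x ≥ ∑ u ∈ Spl S, (-2 : ℝ) :=
    Finset.sum_le_sum fun u _ => lm_ge hx u l
  rw [Finset.sum_const, nsmul_eq_mul] at h2
  linarith

theorem abs_lm_le {S : Finset (Pr K)} {x : K} {P : Fin 3 → Idl K} (hx : Pt x) (hP : IsP S x P)
    {X : ℝ} (hX0 : 0 ≤ X) (hX : ht x ≤ X) (l : Fin 3) {u : Pl K} (hu : u ∈ Spl S) :
    |lm u l x| ≤ X + 2 * (Spl S).card := by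
  classical
  have hc : (1 : ℝ) ≤ (Spl S).card := by
    exact_mod_cast Finset.card_pos.2 ⟨u, hu⟩
  rw [abs_le]
  constructor
  · have := lm_ge hx u l
    linarith
  · have h1 := ht_sum hx hP l
    rw [← Finset.add_sum_erase _ _ hu] at h1
    have h2 : ∑ u ∈ (Spl S).erase u, lm u l x ≥ ∑ u ∈ (Spl S).erase u, (-2 : ℝ) :=
      Finset.sum_le_sum fun u _ => lm_ge hx u l
    rw [Finset.sum_const, nsmul_eq_mul] at h2
    have h3 : (((Spl S).erase u).card : ℝ) ≤ (Spl S).card := by
      exact_mod_cast Finset.card_erase_le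
    have h4 := len_nonneg (P l)
    linarith

/-- the coordinates of the point, scaled so that the coordinate `q` is `gen (P q)` -/
noncomputable def A (w : Pr K → K) (P : Fin 3 → Idl K) (q : Fin 3) (x : K) (l : Fin 3) : K :=
  gen w (P q) * L l x / L q x

theorem A_ne {S : Finset (Pr K)} {w : Pr K → K} {C : ℝ} (hU : Unif S w C) {P : Fin 3 → Idl K}
    {q : Fin 3} {x : K} (hx : Pt x) (l : Fin 3) : A w P q x l ≠ 0 :=
  div_ne_zero (mul_ne_zero (gen_ne hU _) (L_ne hx l)) (L_ne hx q)

theorem A_self {w : Pr K → K} {P : Fin 3 → Idl K} {q : Fin 3} {x : K} (hx : Pt x) :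
    A w P q x q = gen w (P q) := by
  unfold A
  rw [mul_div_assoc, div_self (L_ne hx q), mul_one]

theorem A_rel {w : Pr K → K} {P : Fin 3 → Idl K} {q : Fin 3} {x : K} :
    A w P q x 0 + A w P q x 1 = A w P q x 2 := by
  unfold A
  rw [← L_rel]
  ring

theorem fv_A {S : Finset (Pr K)} {w : Pr K → K} {C : ℝ} (hU : Unif S w C) {P : Fin 3 → Idl K}
    {q : Fin 3} {x : K} (hP : IsP S x P) (l : Fin 3) {v : Pr K} (hv : v ∉ S) :
    fv v (A w P q x l) = (Nv v) ^ (-(P l v : ℤ)) := by
  unfold A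
  have h1 : (max (fv v x) 1) ≠ 0 := (lt_max_of_lt_right one_pos).ne'
  have h2 : (Nv v) ^ (-(P q v : ℤ)) ≠ 0 := (zpow_pos (Nv_pos v) _).ne'
  rw [map_div₀, map_mul, fv_gen hU (hP.off q) hv, hP.val l v hv, hP.val q v hv]
  field_simp

theorem IsI_A {S : Finset (Pr K)} {w : Pr K → K} {C : ℝ} (hU : Unif S w C) {P : Fin 3 → Idl K}
    {q : Fin 3} {x : K} (hP : IsP S x P) (l : Fin 3) : IsI S (A w P q x l) (P l) :=
  ⟨hP.off l, fun _ hv => fv_A hU hP l hv⟩

theorem Bd_A {S : Finset (Pr K)} {w : Pr K → K} {C : ℝ} (hU : Unif S w C) {P : Fin 3 → Idl K}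
    {q : Fin 3} {x : K} (hx : Pt x) (hP : IsP S x P) {X : ℝ} (hX0 : 0 ≤ X) (hX : ht x ≤ X)
    (l : Fin 3) : Bd S ((C + 2) * (X + 2 * (Spl S).card)) (A w P q x l) := by
  intro u hu
  have h1 := Bd.gen hU (hP.off q) (len_P_le hx hP hX q) u hu
  have h2 := abs_lm_le hx hP hX0 hX l hu
  have h3 := abs_lm_le hx hP hX0 hX q hu
  have e1 : mt u * Real.log (av u (A w P q x l)) =
      mt u * Real.log (av u (gen w (P q))) - lm u l x + lm u q x := by
    unfold A
    rw [lm_eq hx, lm_eq hx, map_div₀, map_mul,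
      Real.log_div (mul_ne_zero ((av u).ne_zero (gen_ne hU _)) ((av u).ne_zero (L_ne hx l)))
      ((av u).ne_zero (L_ne hx q)),
      Real.log_mul ((av u).ne_zero (gen_ne hU _)) ((av u).ne_zero (L_ne hx l))]
    ring
  rw [e1]
  calc _ ≤ |mt u * Real.log (av u (gen w (P q))) - lm u l x| + |lm u q x| := abs_add_le _ _
    _ ≤ |mt u * Real.log (av u (gen w (P q)))| + |lm u l x| + |lm u q x| := by
        gcongr
        exact abs_sub _ _
    _ ≤ _ := by linarith

/-- the point is determined by two of the coordinates -/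
theorem x_of_A {w : Pr K → K} {P P' : Fin 3 → Idl K} {q : Fin 3} {x x' : K} (hx : Pt x)
    (hx' : Pt x') {S : Finset (Pr K)} {C : ℝ} (hU : Unif S w C) {l m : Fin 3} (hlm : l ≠ m)
    (h1 : A w P q x l = A w P' q x' l) (h2 : A w P q x m = A w P' q x' m) : x = x' := by
  have h3 : ∀ k, A w P q x k = A w P' q x' k := by
    have r := A_rel (w := w) (P := P) (q := q) (x := x)
    have r' := A_rel (w := w) (P := P') (q := q) (x := x')
    intro k
    fin_cases l <;> fin_cases m <;> fin_cases k <;> simp only [Fin.zero_eta, Fin.mk_one,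
      Fin.reduceFinMk, ne_eq, not_true_eq_false] at h1 h2 hlm ⊢ <;>
      first
      | exact h1
      | exact h2
      | (rw [← r, ← r', h1, h2])
      | (rw [← r, ← r', h1] at h2; exact add_left_cancel h2)
      | (rw [← r, ← r', h1] at h2; exact add_right_cancel h2)
      | (rw [← r, ← r', h2] at h1; exact add_left_cancel h1)
      | (rw [← r, ← r', h2] at h1; exact add_right_cancel h1)
  have e : ∀ {P : Fin 3 → Idl K} {x : K}, Pt x → A w P q x 0 / A w P q x 1 = x := by
    intro P x hx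
    have h4 : gen w (P q) ≠ 0 := gen_ne hU _
    have h5 := L_ne hx q
    unfold A
    show gen w (P q) * x / L q x / (gen w (P q) * 1 / L q x) = x
    field_simp
  rw [← e (P := P) hx, ← e (P := P') hx', h3 0, h3 1]

/-- the differences of the other coordinates agree up to sign, if the coordinates `q` agree -/
theorem diff_rel {p q r : Fin 3} (hpq : p ≠ q) (hqr : q ≠ r) (hpr : p ≠ r) :
    ∃ σ : K, (σ = 1 ∨ σ = -1) ∧ ∀ a a' : Fin 3 → K, a 0 + a 1 = a 2 → a' 0 + a' 1 = a' 2 → a q = a' q →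
      a p - a' p = σ * (a r - a' r) := by
  by_cases hq : q = 2
  · refine ⟨-1, Or.inr rfl, ?_⟩
    subst hq
    intro a a' h h' hq
    fin_cases p <;> fin_cases r <;> simp at hpq hqr hpr ⊢ <;> rw [← h, ← h'] at hq <;>
      linear_combination hq
  · refine ⟨1, Or.inl rfl, ?_⟩
    intro a a' h h' hq'
    fin_cases q <;> fin_cases p <;> fin_cases r <;> simp at hpq hqr hpr hq ⊢ <;>
      simp at hq' <;>
      first
      | linear_combination h - h' - hq'
      | linear_combination h' - h + hq'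

end Pool.Agent.W462.AK
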