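import Mathlib
import Pool.Agent.W462.AK.Pre

/-!
# The difference bound (StmtDB)
-/

set_option autoImplicit false
set_option linter.unusedSectionVars false

namespace Pool.Agent.W462.AK

open NumberField IsDedekindDomain Finset Pool.Agent.H691R3 Pool.Agent.W223.AK

variable {K : Type} [Field K] [NumberField K]

/-- the indicator of the primes of exponent `e` -/
noncomputable def ind (a : Idl K) (e : ℕ) : Idl K :=
  (ex a {m | m = e}).mapRange (fun k => min k 1) rfl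

theorem ind_apply (a : Idl K) {e : ℕ} (he : e ≠ 0) (v : Pr K) :
    ind a e v = if a v = e then 1 else 0 := by
  classical
  unfold ind
  rw [Finsupp.mapRange_apply, ex_apply]
  by_cases h : a v = e
  · simp only [h, Set.mem_ofPred_eq, if_true]
    omega
  · simp [h]

theorem ex_add_ind (a : Idl K) {e : ℕ} (he : e ≠ 0) : ex a {m | m ≠ e} + e • ind a e = a := by
  classical
  ext v
  rw [Finsupp.add_apply, Finsupp.smul_apply, ind_apply a he, ex_apply]
  by_cases h : a v = e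
  · simp [h]
  · simp [h]

theorem ind_le (a : Idl K) {e : ℕ} (he : e ≠ 0) : ind a e ≤ a := by
  intro v
  rw [ind_apply a he]
  split_ifs with h
  · omega
  · exact Nat.zero_le _

theorem quad_bound {t u v : ℝ} (hu : 0 ≤ u) (hv : 0 ≤ v) (h : t ^ 2 ≤ u * (t + v)) :
    t ≤ u + Real.sqrt (u * v) := by
  by_contra hcon
  push Not at hcon
  have h1 : 0 ≤ Real.sqrt (u * v) := Real.sqrt_nonneg _
  have h2 : Real.sqrt (u * v) ^ 2 = u * v := Real.sq_sqrt (mul_nonneg hu hv)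
  have h3 : Real.sqrt (u * v) < t - u := by linarith
  have h4 : u * v < (t - u) ^ 2 := by
    rw [← h2]
    exact pow_lt_pow_left₀ h3 h1 two_ne_zero
  nlinarith

/-- the polynomial `T ^ e - (T - δ) ^ e - g` has at most `e` roots -/
theorem roots_le {e : ℕ} (he : 2 ≤ e) {δ g : K} (hδ : δ ≠ 0) :
    ∃ R : Finset K, R.card ≤ e ∧ ∀ Y : K, Y ^ e - (Y - δ) ^ e = g → Y ∈ R := by
  classical
  set F : Polynomial K := Polynomial.X ^ e - (Polynomial.X - Polynomial.C δ) ^ e - Polynomial.C g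
    with hF
  have hF0 : F ≠ 0 := by
    intro h
    have h1 := congrArg (fun G : Polynomial K => (Polynomial.derivative G).eval 0) h
    simp only [hF, Polynomial.derivative_sub, Polynomial.derivative_X_pow,
      Polynomial.derivative_C, Polynomial.derivative_pow, Polynomial.derivative_X, sub_zero,
      Polynomial.eval_sub, Polynomial.eval_mul, Polynomial.eval_pow, Polynomial.eval_X,
      Polynomial.eval_C, Polynomial.eval_natCast, Polynomial.eval_one, mul_one,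
      Polynomial.derivative_zero, Polynomial.eval_zero, zero_sub, map_natCast] at h1
    rw [zero_pow (by omega), mul_zero, zero_sub, neg_eq_zero, mul_eq_zero] at h1
    rcases h1 with h1 | h1
    · have : e = 0 := by exact_mod_cast h1
      omega
    · exact hδ (neg_eq_zero.1 (pow_eq_zero_iff (by omega) |>.1 h1))
  refine ⟨F.roots.toFinset, ?_, ?_⟩
  · refine (Multiset.toFinset_card_le _).trans ((Polynomial.card_roots' F).trans ?_)
    rw [hF]
    refine (Polynomial.natDegree_sub_le _ _).trans (max_le ?_ ?_)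
    · refine (Polynomial.natDegree_sub_le _ _).trans (max_le ?_ ?_)
      · rw [Polynomial.natDegree_X_pow]
      · refine (Polynomial.natDegree_pow_le).trans ?_
        rw [Polynomial.natDegree_X_sub_C, mul_one]
    · rw [Polynomial.natDegree_C]; exact Nat.zero_le _
  · intro Y hY
    rw [Multiset.mem_toFinset, Polynomial.mem_roots hF0]
    show F.eval Y = 0
    rw [hF]
    simp only [Polynomial.eval_sub, Polynomial.eval_pow, Polynomial.eval_X, Polynomial.eval_C]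
    rw [hY, sub_self]

theorem final_ineq {e B c₁ c₂ c₃ t Z ε X : ℝ} (heR : 1 ≤ e) (hB1 : 1 ≤ B)
    (hsq2 : t ^ 2 ≤ (B * ((B * Real.exp c₁) * (B * Real.exp c₂))) *
      (t + (B * (B * Real.exp c₃)) * (B * (B * Real.exp c₃)) * (B * (B * (B * (B * e))))))
    (hB6 : B ^ 6 = Z ^ 6 * Real.exp ε * Real.exp (ε * X)) :
    t ≤ e * Z ^ 6 * Real.exp ε * Real.exp (ε * X) *
      (Real.exp (c₁ + c₂) + Real.exp ((c₁ + c₂) / 2 + c₃)) := by
  set u0 : ℝ := B * ((B * Real.exp c₁) * (B * Real.exp c₂)) with hu0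
  set v0 : ℝ := (B * (B * Real.exp c₃)) * (B * (B * Real.exp c₃)) * (B * (B * (B * (B * e))))
    with hv0
  have hu00 : 0 ≤ u0 := by positivity
  have hv00 : 0 ≤ v0 := by positivity
  have hfin := quad_bound hu00 hv00 hsq2
  have hu1 : u0 ≤ e * B ^ 6 * Real.exp (c₁ + c₂) := by
    have h5 : u0 = B ^ 3 * Real.exp (c₁ + c₂) := by
      rw [hu0, Real.exp_add]; ring
    rw [h5]
    have h6 : B ^ 3 ≤ B ^ 6 := pow_le_pow_right₀ hB1 (by norm_num)
    have h7 : B ^ 6 ≤ e * B ^ 6 := le_mul_of_one_le_left (by positivity) heR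
    exact mul_le_mul_of_nonneg_right (h6.trans h7) (Real.exp_pos _).le
  have hv1 : Real.sqrt (u0 * v0) ≤ e * B ^ 6 * Real.exp ((c₁ + c₂) / 2 + c₃) := by
    rw [Real.sqrt_le_left (by positivity)]
    have h5 : u0 * v0 = e * B ^ 11 * Real.exp (((c₁ + c₂) / 2 + c₃)) ^ 2 := by
      rw [hu0, hv0, ← Real.exp_nat_mul,
        show ((2 : ℕ) : ℝ) * ((c₁ + c₂) / 2 + c₃) = c₁ + c₂ + c₃ + c₃ by push_cast; ring,
        Real.exp_add, Real.exp_add, Real.exp_add]
      ring
    have h6 : B ^ 11 ≤ B ^ 12 := pow_le_pow_right₀ hB1 (by norm_num)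
    have h7 : e * B ^ 11 ≤ (e * B ^ 6) ^ 2 := by
      calc e * B ^ 11 ≤ e * B ^ 12 := mul_le_mul_of_nonneg_left h6 (by positivity)
        _ ≤ e * (e * B ^ 12) := mul_le_mul_of_nonneg_left
            (le_mul_of_one_le_left (by positivity) heR) (by positivity)
        _ = (e * B ^ 6) ^ 2 := by ring
    calc u0 * v0 = e * B ^ 11 * Real.exp (((c₁ + c₂) / 2 + c₃)) ^ 2 := h5
      _ ≤ (e * B ^ 6) ^ 2 * Real.exp (((c₁ + c₂) / 2 + c₃)) ^ 2 :=
          mul_le_mul_of_nonneg_right h7 (sq_nonneg _)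
      _ = _ := by ring
  calc t ≤ u0 + Real.sqrt (u0 * v0) := hfin
    _ ≤ e * B ^ 6 * Real.exp (c₁ + c₂) + e * B ^ 6 * Real.exp ((c₁ + c₂) / 2 + c₃) :=
        add_le_add hu1 hv1
    _ = e * Z ^ 6 * Real.exp ε * Real.exp (ε * X) *
        (Real.exp (c₁ + c₂) + Real.exp ((c₁ + c₂) / 2 + c₃)) := by
        rw [hB6]; ring

theorem B_pow {Z Cs ε X : ℝ} (hCs : Cs ≠ 0) :
    (Z * Real.exp (ε / (6 * Cs) * (Cs * (X + 1)))) ^ 6 =
      Z ^ 6 * Real.exp ε * Real.exp (ε * X) := by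
  rw [mul_pow, ← Real.exp_nat_mul, mul_assoc, ← Real.exp_add]
  congr 2
  field_simp
  push_cast
  ring

theorem sizes {C c0 X : ℝ} (hC : 1 ≤ C) (hc0 : 0 ≤ c0) (hX : 0 ≤ X) :
    0 ≤ (2 * C + 2) * (X + 2 * c0) ∧
    X + 2 * c0 ≤ (2 * C + 2) * (X + 2 * c0) ∧
    (C + 2) * (X + 2 * c0) ≤ (2 * C + 2) * (X + 2 * c0) ∧
    C * (X + 2 * c0) ≤ (2 * C + 2) * (X + 2 * c0) ∧
    (C + 2) * (X + 2 * c0) + C * (X + 2 * c0) = (2 * C + 2) * (X + 2 * c0) ∧
    (2 * C + 2) * (X + 2 * c0) ≤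
      (c0 + 1) * (2 * C + 2) * ((2 * C + 2) * (2 * c0 + 1) + 2) * (X + 1) ∧
    c0 * ((2 * C + 2) * (X + 2 * c0) + 2) ≤
      (c0 + 1) * (2 * C + 2) * ((2 * C + 2) * (2 * c0 + 1) + 2) * (X + 1) ∧
    (c0 + 1) * ((2 * C + 2) * (X + 2 * c0) + 2) + C * (c0 * ((2 * C + 2) * (X + 2 * c0) + 2)) ≤
      (c0 + 1) * (2 * C + 2) * ((2 * C + 2) * (2 * c0 + 1) + 2) * (X + 1) := by
  have hY : 0 ≤ X + 2 * c0 := by linarith
  have hCY : 0 ≤ C * (X + 2 * c0) := mul_nonneg (by linarith) hY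
  obtain ⟨V, hV⟩ : ∃ V, V = ((2 * C + 2) * (2 * c0 + 1) + 2) * (X + 1) := ⟨_, rfl⟩
  obtain ⟨T, hT⟩ : ∃ T, T = (2 * C + 2) * (X + 2 * c0) := ⟨_, rfl⟩
  have hT0 : 0 ≤ T := by rw [hT]; positivity
  have hTV : T + 2 ≤ V := by
    have e1 : V - (T + 2) = (2 * C + 2) * (2 * (c0 * X) + 1) + 2 * X := by rw [hV, hT]; ring
    have e2 : 0 ≤ (2 * C + 2) * (2 * (c0 * X) + 1) + 2 * X := by positivity
    linarith
  have hV0 : 0 ≤ V := by linarith
  have hX' : (c0 + 1) * (2 * C + 2) * ((2 * C + 2) * (2 * c0 + 1) + 2) * (X + 1) =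
      (c0 + 1) * (2 * C + 2) * V := by rw [hV]; ring
  rw [hX', ← hT]
  have hcV : 0 ≤ c0 * V := mul_nonneg hc0 hV0
  have hCV : 0 ≤ C * V := mul_nonneg (by linarith) hV0
  have hcCV : 0 ≤ c0 * (C * V) := mul_nonneg hc0 hCV
  have e3 : (c0 + 1) * (2 * C + 2) * V = 2 * (c0 * (C * V)) + 2 * (c0 * V) + 2 * (C * V) + 2 * V := by
    ring
  rw [e3]
  have e4 : c0 * (T + 2) ≤ c0 * V := mul_le_mul_of_nonneg_left hTV hc0
  have e5 : C * (c0 * (T + 2)) ≤ C * (c0 * V) := mul_le_mul_of_nonneg_left e4 (by linarith)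
  have e6 : C * (c0 * V) = c0 * (C * V) := by ring
  have e7 : (c0 + 1) * (T + 2) = c0 * (T + 2) + (T + 2) := by ring
  have e8 : T = 2 * (C * (X + 2 * c0)) + 2 * (X + 2 * c0) := by rw [hT]; ring
  have e9 : (C + 2) * (X + 2 * c0) = C * (X + 2 * c0) + 2 * (X + 2 * c0) := by ring
  refine ⟨hT0, by linarith, by linarith, by linarith, by linarith, by linarith, by linarith, ?_⟩
  rw [e7]
  linarith

theorem db {S : Finset (Pr K)} {w : Pr K → K} {C : ℝ} (hU : Unif S w C) (hC : StmtCNT K)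
    (hF : StmtFAC K) (hS : StmtSU K) : StmtDB S := by
  classical
  intro e ε he hε
  have he0 : e ≠ 0 := by omega
  have heR : (1 : ℝ) ≤ e := by exact_mod_cast (by omega : 1 ≤ e)
  have hC1 : 1 ≤ C := hU.one_le
  set c0 : ℝ := ((Spl S).card : ℝ) with hc0def
  have hc0 : 0 ≤ c0 := Nat.cast_nonneg _
  set W : ℝ := (2 * C + 2) * (2 * c0 + 1) + 2 with hW
  have hW1 : 1 ≤ W := by
    have : 0 ≤ (2 * C + 2) * (2 * c0 + 1) := by positivity
    linarith
  set Cs : ℝ := (c0 + 1) * (2 * C + 2) * W with hCs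
  have hCs1 : 1 ≤ Cs := by
    have h1 : 1 ≤ (c0 + 1) * (2 * C + 2) := by
      have : 0 ≤ c0 * (2 * C + 2) := by positivity
      linarith
    calc (1 : ℝ) = 1 * 1 := (one_mul 1).symm
      _ ≤ _ := mul_le_mul h1 hW1 zero_le_one (by positivity)
  set ε₁ : ℝ := ε / (6 * Cs) with hε₁
  have hε₁0 : 0 < ε₁ := by positivity
  obtain ⟨D1, hD1, HC⟩ := hC ε₁ hε₁0
  obtain ⟨D2, hD2, HF⟩ := card_div hF hε₁0
  obtain ⟨D3, hD3, HS⟩ := hS S ε₁ hε₁0
  set D0 : ℝ := 1 + D1 + D2 + D3 with hD0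
  have hD01 : 1 ≤ D0 := by linarith
  refine ⟨e * D0 ^ 6 * Real.exp ε, by positivity, ?_⟩
  intro X E P p q r c₁ c₂ c₃ hX hE hpq hqr hpr h1 h2 h3
  -- the common bounds
  set X' : ℝ := Cs * (X + 1) with hX'
  have hX'0 : 0 ≤ X' := by positivity
  set B : ℝ := D0 * Real.exp (ε₁ * X') with hB
  have hexp1 : 1 ≤ Real.exp (ε₁ * X') := Real.one_le_exp (by positivity)
  have hB1 : 1 ≤ B := one_le_mul_of_one_le_of_one_le hD01 hexp1
  have hB0 : 0 ≤ B := by linarith
  have hBfin : B ^ 6 = D0 ^ 6 * Real.exp ε * Real.exp (ε * X) := B_pow (by linarith)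
  have hCNT : ∀ (c : ℝ) (F : Finset (Idl K)), (∀ a ∈ F, rl a ≤ c ∧ len a ≤ X') →
      (F.card : ℝ) ≤ B * Real.exp c := by
    intro c F h
    refine (HC X' c F hX'0 h).trans ?_
    rw [add_comm c, Real.exp_add, hB, ← mul_assoc]
    have : D1 ≤ D0 := by linarith
    gcongr
  have hDIV : ∀ (I : Idl K) (F : Finset (Idl K)), len I ≤ X' → (∀ a ∈ F, a ≤ I) →
      (F.card : ℝ) ≤ B := by
    intro I F hI h
    refine (HF I F h).trans ?_
    have : D2 ≤ D0 := by linarith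
    rw [hB]
    gcongr
  have hSU : ∀ F : Finset K, (∀ y ∈ F, y ≠ 0 ∧ (∀ v, v ∉ S → fv v y = 1) ∧ Bd S X' y) →
      (F.card : ℝ) ≤ B := by
    intro F h
    refine (HS X' F hX'0 (fun y hy => ⟨(h y hy).1, (h y hy).2.1, (h y hy).2.2⟩)).trans ?_
    have : D3 ≤ D0 := by linarith
    rw [hB]
    gcongr
  -- comparison of the sizes
  set T1 : ℝ := (2 * C + 2) * (X + 2 * c0) with hT1
  obtain ⟨hT10, hXT1, hCT1, hCT2, hCT3, hT1X, hcT, hcT2⟩ := sizes hC1 hc0 hX
  rw [← hW, ← hCs, ← hX', ← hT1] at *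
  -- coordinates
  set a : K → Fin 3 → K := fun x => A w (P x) q x with ha
  set P1 : K → Idl K := fun x => ex (P x p) {m | m ≠ e} with hP1
  set Y : K → K := fun x => gen w (ind (P x p) e) with hY
  set s : K → K := fun x => a x p / gen w (P x p) with hs
  set s2 : K → K := fun x => a x r / gen w (P x r) with hs2
  have hlenP : ∀ x ∈ E, ∀ l, len (P x l) ≤ X + 2 * c0 := fun x hx l =>
    len_P_le (hE x hx).1 (hE x hx).2.1 (hE x hx).2.2 l
  have hlenP' : ∀ x ∈ E, ∀ l, len (P x l) ≤ X' := by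
    intro x hx l
    have := hlenP x hx l
    exact this.trans (hXT1.trans hT1X)
  have hBdA : ∀ x ∈ E, ∀ l, Bd S ((C + 2) * (X + 2 * c0)) (a x l) := fun x hx l =>
    Bd_A hU (hE x hx).1 (hE x hx).2.1 hX (hE x hx).2.2 l
  have hane : ∀ x ∈ E, ∀ l, a x l ≠ 0 := fun x hx l => A_ne hU (hE x hx).1 l
  have hunit : ∀ x ∈ E, ∀ l, a x l / gen w (P x l) ≠ 0 ∧
      (∀ v, v ∉ S → fv v (a x l / gen w (P x l)) = 1) ∧ Bd S X' (a x l / gen w (P x l)) := by
    intro x hx l
    refine ⟨div_ne_zero (hane x hx l) (gen_ne hU _), ?_, ?_⟩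
    · intro v hv
      rw [map_div₀, fv_A hU (hE x hx).2.1 l hv, fv_gen hU ((hE x hx).2.1.off l) hv, div_self]
      exact (zpow_pos (Nv_pos v) _).ne'
    · refine ((hBdA x hx l).div (Bd.gen hU ((hE x hx).2.1.off l) (hlenP x hx l)) (hane x hx l)
        (gen_ne hU _)).mono ?_
      rw [hCT3]
      exact hT1X
  have hgenP : ∀ x, gen w (P x p) = gen w (P1 x) * Y x ^ e := by
    intro x
    rw [hP1, hY]
    show gen w (P x p) = gen w (ex (P x p) {m | m ≠ e}) * gen w (ind (P x p) e) ^ e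
    rw [← gen_nsmul, ← gen_add, ex_add_ind _ he0]
  have hap : ∀ x, a x p = s x * gen w (P1 x) * Y x ^ e := by
    intro x
    rw [mul_assoc, ← hgenP]
    exact (div_mul_cancel₀ _ (gen_ne hU _)).symm
  have har : ∀ x, a x r = s2 x * gen w (P x r) := fun x =>
    (div_mul_cancel₀ _ (gen_ne hU _)).symm
  have haq : ∀ x ∈ E, a x q = gen w (P x q) := fun x hx => A_self (hE x hx).1
  have hYoff : ∀ x ∈ E, OffS S (ind (P x p) e) := fun x hx =>
    OffS.mono ((hE x hx).2.1.off p) (ind_le _ he0)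
  have hY1 : ∀ x ∈ E, ∀ v, v ∉ S → fv v (Y x) ≤ 1 := by
    intro x hx v hv
    rw [hY]
    show fv v (gen w (ind (P x p) e)) ≤ 1
    rw [fv_gen hU (hYoff x hx) hv]
    exact zpow_neg_le_one v _
  have hYne : ∀ x, Y x ≠ 0 := fun x => gen_ne hU _
  have hYBd : ∀ x ∈ E, Bd S T1 (Y x) := by
    intro x hx
    exact (Bd.gen hU (hYoff x hx) ((len_mono (ind_le _ he0)).trans (hlenP x hx p))).mono hCT2
  -- the number of keys
  set κ : K → K × Idl K × Idl K := fun x => (s x, P1 x, P x q) with hκ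
  have himS : ((E.image s).card : ℝ) ≤ B := by
    apply hSU
    intro y hy
    obtain ⟨x, hx, rfl⟩ := Finset.mem_image.1 hy
    exact hunit x hx p
  have himS2 : ((E.image s2).card : ℝ) ≤ B := by
    apply hSU
    intro y hy
    obtain ⟨x, hx, rfl⟩ := Finset.mem_image.1 hy
    exact hunit x hx r
  have himP1 : ((E.image P1).card : ℝ) ≤ B * Real.exp c₁ := by
    apply hCNT
    intro y hy
    obtain ⟨x, hx, rfl⟩ := Finset.mem_image.1 hy
    exact ⟨h1 x hx, (len_mono (ex_le _ _)).trans (hlenP' x hx p)⟩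
  have himPq : ((E.image (fun x => P x q)).card : ℝ) ≤ B * Real.exp c₂ := by
    apply hCNT
    intro y hy
    obtain ⟨x, hx, rfl⟩ := Finset.mem_image.1 hy
    exact ⟨h2 x hx, hlenP' x hx q⟩
  have himPr : ((E.image (fun x => P x r)).card : ℝ) ≤ B * Real.exp c₃ := by
    apply hCNT
    intro y hy
    obtain ⟨x, hx, rfl⟩ := Finset.mem_image.1 hy
    exact ⟨h3 x hx, hlenP' x hx r⟩
  have hkey : ((E.image κ).card : ℝ) ≤ B * ((B * Real.exp c₁) * (B * Real.exp c₂)) := by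
    have hsub : E.image κ ⊆ (E.image s) ×ˢ ((E.image P1) ×ˢ (E.image (fun x => P x q))) := by
      intro y hy
      obtain ⟨x, hx, rfl⟩ := Finset.mem_image.1 hy
      exact Finset.mem_product.2 ⟨Finset.mem_image_of_mem _ hx,
        Finset.mem_product.2 ⟨Finset.mem_image_of_mem _ hx,
          Finset.mem_image_of_mem (fun x => P x q) hx⟩⟩
    calc ((E.image κ).card : ℝ)
        ≤ (((E.image s) ×ˢ ((E.image P1) ×ˢ (E.image (fun x => P x q)))).card : ℝ) := by
          exact_mod_cast Finset.card_le_card hsub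
      _ = (E.image s).card * ((E.image P1).card * (E.image (fun x => P x q)).card) := by
          rw [Finset.card_product, Finset.card_product]; push_cast; ring
      _ ≤ _ := mul_le_mul himS (mul_le_mul himP1 himPq (Nat.cast_nonneg _)
          (mul_nonneg hB0 (Real.exp_pos _).le))
          (mul_nonneg (Nat.cast_nonneg _) (Nat.cast_nonneg _)) hB0
  have himar : ((E.image (fun x => a x r)).card : ℝ) ≤ B * (B * Real.exp c₃) := by
    have hsub : E.image (fun x => a x r) ⊆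
        ((E.image s2) ×ˢ (E.image (fun x => P x r))).image (fun t => t.1 * gen w t.2) := by
      intro y hy
      obtain ⟨x, hx, rfl⟩ := Finset.mem_image.1 hy
      refine Finset.mem_image.2 ⟨(s2 x, P x r), ?_, (har x).symm⟩
      exact Finset.mem_product.2 ⟨Finset.mem_image_of_mem _ hx,
        Finset.mem_image_of_mem (fun x => P x r) hx⟩
    calc ((E.image (fun x => a x r)).card : ℝ)
        ≤ ((((E.image s2) ×ˢ (E.image (fun x => P x r))).image
            (fun t => t.1 * gen w t.2)).card : ℝ) := by exact_mod_cast Finset.card_le_card hsub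
      _ ≤ (((E.image s2) ×ˢ (E.image (fun x => P x r))).card : ℝ) := by
          exact_mod_cast Finset.card_image_le
      _ = (E.image s2).card * (E.image (fun x => P x r)).card := by
          rw [Finset.card_product]; push_cast; ring
      _ ≤ _ := mul_le_mul himS2 himPr (Nat.cast_nonneg _) hB0
  -- the pairs with the same key
  obtain ⟨σ, hσ, hrel⟩ := diff_rel (K := K) hpq hqr hpr
  have hσ0 : σ ≠ 0 := by
    rcases hσ with h | h <;> rw [h] <;> norm_num
  have hσv : ∀ v, fv v σ = 1 := by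
    intro v
    rcases hσ with h | h
    · rw [h, map_one]
    · rw [h, AbsoluteValue.map_neg, map_one]
  set Q : Finset (K × K) := (E ×ˢ E).filter (fun t => κ t.1 = κ t.2 ∧ t.1 ≠ t.2) with hQ
  have hQmem : ∀ t ∈ Q, t.1 ∈ E ∧ t.2 ∈ E ∧ s t.1 = s t.2 ∧ P1 t.1 = P1 t.2 ∧
      P t.1 q = P t.2 q ∧ t.1 ≠ t.2 := by
    intro t ht
    rw [hQ, Finset.mem_filter, Finset.mem_product] at ht
    have h5 := ht.2.1
    rw [hκ] at h5
    simp only [Prod.mk.injEq] at h5
    exact ⟨ht.1.1, ht.1.2, h5.1, h5.2.1, h5.2.2, ht.2.2⟩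
  have hsame : ∀ t ∈ Q, a t.1 q = a t.2 q := by
    intro t ht
    obtain ⟨k1, k2, -, -, k5, -⟩ := hQmem t ht
    rw [haq _ k1, haq _ k2, k5]
  have hzne : ∀ t ∈ Q, a t.1 r - a t.2 r ≠ 0 := by
    intro t ht h
    obtain ⟨k1, k2, -, -, -, k6⟩ := hQmem t ht
    apply k6
    exact x_of_A (w := w) (P := P t.1) (P' := P t.2) (q := q) (hE _ k1).1 (hE _ k2).1 hU hqr
      (hsame t ht) (sub_eq_zero.1 h)
  have hzeta : ∀ t ∈ Q, s t.1 * gen w (P1 t.1) * (Y t.1 ^ e - Y t.2 ^ e) =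
      σ * (a t.1 r - a t.2 r) := by
    intro t ht
    obtain ⟨k1, k2, k3, k4, -, -⟩ := hQmem t ht
    have h5 := hrel (a t.1) (a t.2) A_rel A_rel (hsame t ht)
    rw [hap, hap, ← k3, ← k4] at h5
    rw [← h5]
    ring
  have hQcard : (Q.card : ℝ) ≤ (B * (B * Real.exp c₃)) * (B * (B * Real.exp c₃)) *
      (B * (B * (B * (B * e)))) := by
    refine card_le_mul_fib Q (fun t => (a t.1 r, a t.2 r)) _ _ (by positivity) ?_ ?_
    · have hsub : Q.image (fun t => (a t.1 r, a t.2 r)) ⊆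
          (E.image (fun x => a x r)) ×ˢ (E.image (fun x => a x r)) := by
        intro y hy
        obtain ⟨t, ht, rfl⟩ := Finset.mem_image.1 hy
        obtain ⟨k1, k2, -⟩ := hQmem t ht
        exact Finset.mem_product.2 ⟨Finset.mem_image_of_mem (fun x => a x r) k1,
          Finset.mem_image_of_mem (fun x => a x r) k2⟩
      calc ((Q.image (fun t => (a t.1 r, a t.2 r))).card : ℝ)
          ≤ (((E.image (fun x => a x r)) ×ˢ (E.image (fun x => a x r))).card : ℝ) := by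
            exact_mod_cast Finset.card_le_card hsub
        _ = (E.image (fun x => a x r)).card * (E.image (fun x => a x r)).card := by
            rw [Finset.card_product]; push_cast; ring
        _ ≤ _ := mul_le_mul himar himar (Nat.cast_nonneg _)
            (mul_nonneg hB0 (mul_nonneg hB0 (Real.exp_pos _).le))
    intro cc hcc
    set Q1 := Q.filter (fun t => (a t.1 r, a t.2 r) = cc) with hQ1
    set z : K := cc.1 - cc.2 with hz
    have hQ1mem : ∀ t ∈ Q1, t ∈ Q ∧ a t.1 r - a t.2 r = z := by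
      intro t ht
      rw [hQ1, Finset.mem_filter] at ht
      refine ⟨ht.1, ?_⟩
      rw [hz, ← ht.2]
    obtain ⟨t0, ht0, ht0'⟩ := Finset.mem_image.1 hcc
    have ht01 : t0 ∈ Q1 := Finset.mem_filter.2 ⟨ht0, ht0'⟩
    have hz0 : z ≠ 0 := by rw [← (hQ1mem t0 ht01).2]; exact hzne t0 ht0
    have hzint : ∀ v, v ∉ S → fv v z ≤ 1 := by
      intro v hv
      obtain ⟨k1, k2, -⟩ := hQmem t0 ht0
      rw [← (hQ1mem t0 ht01).2]
      refine fv_sub_le_one v ?_ ?_
      · rw [fv_A hU (hE _ k1).2.1 r hv]; exact zpow_neg_le_one v _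
      · rw [fv_A hU (hE _ k2).2.1 r hv]; exact zpow_neg_le_one v _
    have hzI := idl_spec S hz0 hzint
    have hzlen : len (idl S z) ≤ X' := by
      refine (len_le_of_ub hzI hz0 (T := T1 + 2) ?_).trans hcT
      obtain ⟨k1, k2, -⟩ := hQmem t0 ht0
      have := ub_sub ((hBdA _ k1 r).mono hCT1) ((hBdA _ k2 r).mono hCT1) (hane _ k1 r) (hane _ k2 r)
        (hzne t0 ht0)
      rw [(hQ1mem t0 ht01).2] at this
      exact this
    have hsu : ∀ x ∈ E, ∀ v, v ∉ S → fv v (s x) = 1 := fun x hx v hv => (hunit x hx p).2.1 v hv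
    have hP1off : ∀ x ∈ E, OffS S (P1 x) := fun x hx => ((hE x hx).2.1.off p).ex _
    have hgint : ∀ t ∈ Q, ∀ v, v ∉ S → fv v (Y t.1 ^ e - Y t.2 ^ e) ≤ 1 := by
      intro t ht v hv
      obtain ⟨k1, k2, -⟩ := hQmem t ht
      exact (fv_pow_sub_le v (hY1 _ k1 v hv) (hY1 _ k2 v hv) e).trans
        (fv_sub_le_one v (hY1 _ k1 v hv) (hY1 _ k2 v hv))
    have hfz : ∀ t ∈ Q1, ∀ v, v ∉ S → fv v z = (Nv v) ^ (-(P1 t.1 v : ℤ)) *
        fv v (Y t.1 ^ e - Y t.2 ^ e) := by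
      intro t ht v hv
      obtain ⟨k0, kz⟩ := hQ1mem t ht
      obtain ⟨k1, k2, -⟩ := hQmem t k0
      have h5 := congrArg (fv v) (hzeta t k0)
      rw [kz, map_mul, map_mul, map_mul, hσv, one_mul, hsu _ k1 v hv, one_mul,
        fv_gen hU (hP1off _ k1) hv] at h5
      exact h5.symm
    -- the ideals `P1`
    refine card_le_mul_fib Q1 (fun t => P1 t.1) _ _ (by positivity) ?_ ?_
    · refine hDIV (idl S z) _ hzlen ?_
      intro I hI
      obtain ⟨t, ht, rfl⟩ := Finset.mem_image.1 hI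
      obtain ⟨k0, kz⟩ := hQ1mem t ht
      obtain ⟨k1, k2, -⟩ := hQmem t k0
      have hJ : IsI S (gen w (P1 t.1)) (P1 t.1) :=
        ⟨hP1off _ k1, fun v hv => fv_gen hU (hP1off _ k1) hv⟩
      refine hzI.le hJ ?_
      intro v hv
      rw [hfz t ht v hv, fv_gen hU (hP1off _ k1) hv]
      exact mul_le_of_le_one_right (zpow_pos (Nv_pos v) _).le (hgint t k0 v hv)
    intro P0 hP0
    set Q2 := Q1.filter (fun t => P1 t.1 = P0) with hQ2
    have hQ2mem : ∀ t ∈ Q2, t ∈ Q1 ∧ P1 t.1 = P0 := fun t ht => Finset.mem_filter.1 ht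
    -- the units `s`
    refine card_le_mul_fib Q2 (fun t => s t.1) _ _ (by positivity) ?_ ?_
    · refine le_trans ?_ himS
      have hsub : Q2.image (fun t => s t.1) ⊆ E.image s := by
        intro y hy
        obtain ⟨t, ht, rfl⟩ := Finset.mem_image.1 hy
        exact Finset.mem_image_of_mem _ (hQmem t (hQ1mem t (hQ2mem t ht).1).1).1
      exact_mod_cast Finset.card_le_card hsub
    intro s0 hs0
    set Q3 := Q2.filter (fun t => s t.1 = s0) with hQ3
    have hQ3mem : ∀ t ∈ Q3, t ∈ Q2 ∧ s t.1 = s0 := fun t ht => Finset.mem_filter.1 ht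
    obtain ⟨t3, ht3, ht3'⟩ := Finset.mem_image.1 hs0
    have ht33 : t3 ∈ Q3 := Finset.mem_filter.2 ⟨ht3, ht3'⟩
    have hs00 : s0 ≠ 0 := by
      rw [← ht3']
      exact (hunit _ (hQmem t3 (hQ1mem t3 (hQ2mem t3 ht3).1).1).1 p).1
    set g : K := σ * z / (s0 * gen w P0) with hg
    have hg0 : g ≠ 0 := div_ne_zero (mul_ne_zero hσ0 hz0) (mul_ne_zero hs00 (gen_ne hU _))
    have hgeq : ∀ t ∈ Q3, Y t.1 ^ e - Y t.2 ^ e = g := by
      intro t ht
      obtain ⟨k3, ks⟩ := hQ3mem t ht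
      obtain ⟨k2, kP⟩ := hQ2mem t k3
      obtain ⟨k0, kz⟩ := hQ1mem t k2
      have h5 := hzeta t k0
      rw [ks, kP, kz] at h5
      rw [hg, ← h5]
      field_simp [gen_ne hU P0]
    have hgint' : ∀ v, v ∉ S → fv v g ≤ 1 := by
      intro v hv
      rw [← hgeq t3 ht33]
      exact hgint t3 (hQ1mem t3 (hQ2mem t3 ht3).1).1 v hv
    have hgI := idl_spec S hg0 hgint'
    have hgz : idl S g ≤ idl S z := by
      refine hzI.le hgI ?_
      intro v hv
      rw [hfz t3 (hQ2mem t3 ht3).1 v hv, hgeq t3 ht33]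
      exact mul_le_of_le_one_left ((fv v).nonneg _) (zpow_neg_le_one v _)
    have hglen : len (idl S g) ≤ X' := (len_mono hgz).trans hzlen
    have hδ0 : ∀ t ∈ Q3, Y t.1 - Y t.2 ≠ 0 := by
      intro t ht h
      apply hg0
      rw [← hgeq t ht, sub_eq_zero.1 h, sub_self]
    have hQ3E : ∀ t ∈ Q3, t ∈ Q ∧ t.1 ∈ E ∧ t.2 ∈ E := by
      intro t ht
      have k0 := (hQ1mem t (hQ2mem t (hQ3mem t ht).1).1).1
      exact ⟨k0, (hQmem t k0).1, (hQmem t k0).2.1⟩
    have hδint : ∀ t ∈ Q3, ∀ v, v ∉ S → fv v (Y t.1 - Y t.2) ≤ 1 := by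
      intro t ht v hv
      obtain ⟨-, k1, k2⟩ := hQ3E t ht
      exact fv_sub_le_one v (hY1 _ k1 v hv) (hY1 _ k2 v hv)
    have hδI : ∀ t ∈ Q3, IsI S (Y t.1 - Y t.2) (idl S (Y t.1 - Y t.2)) := fun t ht =>
      idl_spec S (hδ0 t ht) (hδint t ht)
    have hδub : ∀ t ∈ Q3, ∀ u ∈ Spl S, mt u * Real.log (av u (Y t.1 - Y t.2)) ≤ T1 + 2 := by
      intro t ht
      obtain ⟨-, k1, k2⟩ := hQ3E t ht
      exact ub_sub (hYBd _ k1) (hYBd _ k2) (hYne _) (hYne _) (hδ0 t ht)
    -- the ideal of the difference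
    refine card_le_mul_fib Q3 (fun t => idl S (Y t.1 - Y t.2)) _ _ (by positivity) ?_ ?_
    · refine hDIV (idl S g) _ hglen ?_
      intro I hI
      obtain ⟨t, ht, rfl⟩ := Finset.mem_image.1 hI
      refine hgI.le (hδI t ht) ?_
      intro v hv
      obtain ⟨-, k1, k2⟩ := hQ3E t ht
      rw [← hgeq t ht]
      exact fv_pow_sub_le v (hY1 _ k1 v hv) (hY1 _ k2 v hv) e
    intro J hJ
    set Q4 := Q3.filter (fun t => idl S (Y t.1 - Y t.2) = J) with hQ4
    have hQ4mem : ∀ t ∈ Q4, t ∈ Q3 ∧ idl S (Y t.1 - Y t.2) = J := fun t ht =>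
      Finset.mem_filter.1 ht
    -- the unit of the difference
    refine card_le_mul_fib Q4 (fun t => (Y t.1 - Y t.2) / gen w J) _ _ (by positivity) ?_ ?_
    · apply hSU
      intro y hy
      obtain ⟨t, ht, rfl⟩ := Finset.mem_image.1 hy
      obtain ⟨k3, kJ⟩ := hQ4mem t ht
      have hI := hδI t k3
      rw [kJ] at hI
      refine ⟨div_ne_zero (hδ0 t k3) (gen_ne hU _), ?_, ?_⟩
      · intro v hv
        rw [map_div₀, hI.2 v hv, fv_gen hU hI.1 hv, div_self]
        exact (zpow_pos (Nv_pos v) _).ne'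
      · have hlenJ : len J ≤ c0 * (T1 + 2) := len_le_of_ub hI (hδ0 t k3) (hδub t k3)
        exact ((bd_of_ub hI (hδ0 t k3) (by linarith) (hδub t k3)).div
          (Bd.gen hU hI.1 hlenJ) (hδ0 t k3) (gen_ne hU _)).mono hcT2
    intro u hu
    set Q5 := Q4.filter (fun t => (Y t.1 - Y t.2) / gen w J = u) with hQ5
    obtain ⟨t5, ht5, ht5'⟩ := Finset.mem_image.1 hu
    set δ : K := u * gen w J with hδ
    have hQ5mem : ∀ t ∈ Q5, t ∈ Q4 ∧ Y t.1 - Y t.2 = δ := by
      intro t ht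
      obtain ⟨k4, ku⟩ := Finset.mem_filter.1 ht
      refine ⟨k4, ?_⟩
      rw [hδ, ← ku, div_mul_cancel₀ _ (gen_ne hU _)]
    have hδne : δ ≠ 0 := by
      have h5 : t5 ∈ Q5 := Finset.mem_filter.2 ⟨ht5, ht5'⟩
      rw [← (hQ5mem t5 h5).2]
      exact hδ0 t5 (hQ4mem t5 ht5).1
    obtain ⟨R, hRc, hR⟩ := roots_le (K := K) he (δ := δ) (g := g) hδne
    have hinj : Set.InjOn (fun t : K × K => Y t.1) (Q5 : Set (K × K)) := by
      intro t ht t' ht' hYY
      have hYY1 : Y t.1 = Y t'.1 := hYY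
      obtain ⟨k4, kd⟩ := hQ5mem t ht
      obtain ⟨k4', kd'⟩ := hQ5mem t' ht'
      have k3 := (hQ4mem t k4).1
      have k3' := (hQ4mem t' k4').1
      have hYY2 : Y t.2 = Y t'.2 := by
        have e1 : Y t.2 = Y t.1 - δ := by rw [← kd]; ring
        have e2 : Y t'.2 = Y t'.1 - δ := by rw [← kd']; ring
        rw [e1, e2, hYY1]
      obtain ⟨k2, ks⟩ := hQ3mem t k3
      obtain ⟨k2', ks'⟩ := hQ3mem t' k3'
      obtain ⟨k1, kP⟩ := hQ2mem t k2
      obtain ⟨k1', kP'⟩ := hQ2mem t' k2'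
      obtain ⟨k0, kc⟩ := Finset.mem_filter.1 k1
      obtain ⟨k0', kc'⟩ := Finset.mem_filter.1 k1'
      obtain ⟨m1, m2, m3, m4, -, -⟩ := hQmem t k0
      obtain ⟨m1', m2', m3', m4', -, -⟩ := hQmem t' k0'
      have hc1 : a t.1 r = a t'.1 r := by
        rw [← kc'] at kc
        exact (Prod.mk.inj kc).1
      have hc2 : a t.2 r = a t'.2 r := by
        rw [← kc'] at kc
        exact (Prod.mk.inj kc).2
      have hp1 : a t.1 p = a t'.1 p := by
        rw [hap, hap, ks, ks', kP, kP', hYY1]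
      have hp2 : a t.2 p = a t'.2 p := by
        rw [hap, hap, ← m3, ← m3', ks, ks', ← m4, ← m4', kP, kP', hYY2]
      exact Prod.ext
        (x_of_A (w := w) (P := P t.1) (P' := P t'.1) (q := q) (hE _ m1).1 (hE _ m1').1 hU hpr
          hp1 hc1)
        (x_of_A (w := w) (P := P t.2) (P' := P t'.2) (q := q) (hE _ m2).1 (hE _ m2').1 hU hpr
          hp2 hc2)
    have hle : Q5.card ≤ R.card := by
      refine Finset.card_le_card_of_injOn (fun t : K × K => Y t.1) ?_ hinj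
      intro t ht
      obtain ⟨k4, kd⟩ := hQ5mem t ht
      apply hR
      have e2 : Y t.1 - δ = Y t.2 := by rw [← kd]; ring
      rw [e2]
      exact hgeq t (hQ4mem t k4).1
    exact_mod_cast hle.trans hRc
  -- conclusion
  have hsq := card_sq_le E κ
  have hsq2 : (E.card : ℝ) ^ 2 ≤ (B * ((B * Real.exp c₁) * (B * Real.exp c₂))) *
      (E.card + (B * (B * Real.exp c₃)) * (B * (B * Real.exp c₃)) * (B * (B * (B * (B * e))))) := by
    exact hsq.trans (mul_le_mul hkey (add_le_add le_rfl hQcard)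
      (add_nonneg (Nat.cast_nonneg _) (Nat.cast_nonneg _))
      (mul_nonneg hB0 (mul_nonneg (mul_nonneg hB0 (Real.exp_pos _).le)
        (mul_nonneg hB0 (Real.exp_pos _).le))))
  exact final_ineq heR hB1 hsq2 hBfin

end Pool.Agent.W462.AK
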